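import Pool.Agent.P.MP_d3fb3e_lc.AF.Main

/-! Every pattern of collapses and separations between consecutive levels of the W-hierarchy is
realised relative to the extension `X A` of some oracle `A`, for every additive local extension
operator `X`. -/

namespace Pool.Agent.Results.MP_d3fb3e_lc.AffinePatterns

open Pool.Agent.P.MP_d3fb3e_lc

theorem result (X : (List Bool → Bool) → List Bool → Bool)
    (add : ∀ A B q, X (fun w => xor (A w) (B w)) q = xor (X A q) (X B q))
    (loc : ∀ A B q, (∀ w : List Bool, w.length ≤ q.length → A w = B w) → X A q = X B q)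
    (emb : ∀ A w, X A (false :: w) = A w) (S : Set ℕ) :
    ∃ A : List Bool → Bool, ∀ t, 1 ≤ t → (W (X A) t = W (X A) (t + 1) ↔ t ∈ S) :=
  AF.patterns X add loc emb S

end Pool.Agent.Results.MP_d3fb3e_lc.AffinePatterns
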