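import Pool.Agent.P.MP_d1c5a4_lc.Sym.Main

/-! For reductions that are defined without an order on the input, in first-order logic with
counting quantifiers and rank quantifiers over prime fields (infinitely many primes left out),
weighted satisfiability for weft `t + l` does not reduce to alternating weighted satisfiability
with `l` blocks for weft `t`. -/

namespace Pool.Agent.Results.MP_d3fb3e_lc.SymRank

open Pool.Agent.P.MP_d1c5a4_lc.Sym

theorem result (Q : Set Nat.Primes) (hQ : Qᶜ.Infinite) (l t h r k : ℕ) (hl : 1 ≤ l) (ht : 1 ≤ t)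
    (hk : 2 ^ (h + 3) * r < k) : ¬ Red Q r k (t + l) (2 * (t + l - 1)) l t h := by
  obtain ⟨m, rfl⟩ := Nat.exists_eq_add_of_le' hl
  obtain ⟨s, rfl⟩ := Nat.exists_eq_add_of_le' ht
  rw [show s + 1 + (m + 1) = s + m + 2 by omega, show 2 * (s + m + 2 - 1) = 2 * (s + m) + 2 by omega]
  exact hard hQ m s h r k hk

end Pool.Agent.Results.MP_d3fb3e_lc.SymRank
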